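import Mathlib

namespace Pool.Agent.H720Z.F321

open PowerSeries

/-- Catalan series over the rationals -/
noncomputable def Cat : ℚ⟦X⟧ := PowerSeries.map (Nat.castRingHom ℚ) catalanSeries

lemma Cat_eq : Cat ^ 2 * X + 1 = Cat := by
  have h := congrArg (PowerSeries.map (Nat.castRingHom ℚ)) catalanSeries_sq_mul_X_add_one
  simpa [Cat] using h

/-- square root of `1 - 4 x` -/
noncomputable def SS : ℚ⟦X⟧ := 1 - 2 * X * Cat

lemma SS_sq : SS ^ 2 = 1 - 4 * X := by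
  unfold SS
  linear_combination (4 * X) * Cat_eq

/-- series rational in `x` and the square root -/
noncomputable def RR : Subring ℚ⟦X⟧ where
  carrier := {F | ∃ P₀ P₁ Q : Polynomial ℚ, Q ≠ 0 ∧
    (Q : ℚ⟦X⟧) * F = (P₀ : ℚ⟦X⟧) + (P₁ : ℚ⟦X⟧) * SS}
  mul_mem' := by
    rintro F G ⟨P0, P1, Q, hQ, h⟩ ⟨P0', P1', Q', hQ', h'⟩
    refine ⟨P0 * P0' + P1 * P1' * (1 - 4 * Polynomial.X), P0 * P1' + P1 * P0', Q * Q',
      mul_ne_zero hQ hQ', ?_⟩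
    have h4 : ((4 : Polynomial ℚ) : ℚ⟦X⟧) = 4 := map_ofNat Polynomial.coeToPowerSeries.ringHom 4
    push_cast
    rw [h4]
    have e : (Q : ℚ⟦X⟧) * Q' * (F * G) = ((Q : ℚ⟦X⟧) * F) * (Q' * G) := by ring
    rw [e, h, h']
    linear_combination ((P1 : ℚ⟦X⟧) * P1') * SS_sq
  one_mem' := ⟨1, 0, 1, one_ne_zero, by simp⟩
  add_mem' := by
    rintro F G ⟨P0, P1, Q, hQ, h⟩ ⟨P0', P1', Q', hQ', h'⟩
    refine ⟨Q' * P0 + Q * P0', Q' * P1 + Q * P1', Q * Q', mul_ne_zero hQ hQ', ?_⟩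
    push_cast
    linear_combination (Q' : ℚ⟦X⟧) * h + (Q : ℚ⟦X⟧) * h'
  zero_mem' := ⟨0, 0, 1, one_ne_zero, by simp⟩
  neg_mem' := by
    rintro F ⟨P0, P1, Q, hQ, h⟩
    refine ⟨-P0, -P1, Q, hQ, ?_⟩
    push_cast
    linear_combination -h

lemma mem_RR {F : ℚ⟦X⟧} : F ∈ RR ↔ ∃ P₀ P₁ Q : Polynomial ℚ, Q ≠ 0 ∧
    (Q : ℚ⟦X⟧) * F = (P₀ : ℚ⟦X⟧) + (P₁ : ℚ⟦X⟧) * SS := Iff.rfl

lemma X_mem : (X : ℚ⟦X⟧) ∈ RR := ⟨Polynomial.X, 0, 1, one_ne_zero, by simp⟩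

lemma Cat_mem : Cat ∈ RR := by
  refine ⟨1, -1, 2 * Polynomial.X, by simp, ?_⟩
  have h2 : ((2 : Polynomial ℚ) : ℚ⟦X⟧) = 2 := map_ofNat Polynomial.coeToPowerSeries.ringHom 2
  push_cast
  rw [h2]
  unfold SS
  ring

lemma norm_ne {P0 P1 : Polynomial ℚ} (h : P0 ≠ 0 ∨ P1 ≠ 0) :
    P0 ^ 2 - P1 ^ 2 * (1 - 4 * Polynomial.X) ≠ 0 := by
  intro h0
  have h1 : P0 ^ 2 = P1 ^ 2 * (1 - 4 * Polynomial.X) := sub_eq_zero.1 h0
  by_cases hP1 : P1 = 0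
  · subst hP1
    simp at h1
    rcases h with h | h
    · exact h h1
    · exact h rfl
  · have hd : (1 - 4 * Polynomial.X : Polynomial ℚ).natDegree = 1 := by
      compute_degree!
    have hne : (1 - 4 * Polynomial.X : Polynomial ℚ) ≠ 0 := by
      intro h'
      rw [h'] at hd
      simp at hd
    have h2 := congrArg Polynomial.natDegree h1
    rw [Polynomial.natDegree_mul (pow_ne_zero 2 hP1) hne, Polynomial.natDegree_pow,
      Polynomial.natDegree_pow, hd] at h2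
    omega

lemma div_mem {G F : ℚ⟦X⟧} (hG : G ∈ RR) (hG0 : G ≠ 0) (hGF : G * F ∈ RR) : F ∈ RR := by
  obtain ⟨P0, P1, Q, hQ, h⟩ := hG
  have hne : P0 ≠ 0 ∨ P1 ≠ 0 := by
    by_contra hc
    push Not at hc
    rw [hc.1, hc.2] at h
    simp only [Polynomial.coe_zero, zero_mul, add_zero, mul_eq_zero] at h
    rcases h with h | h
    · exact hQ (Polynomial.coe_eq_zero_iff.1 h)
    · exact hG0 h
  have hN := norm_ne hne
  have hconj : ((P0 : ℚ⟦X⟧) - P1 * SS) ∈ RR := ⟨P0, -P1, 1, one_ne_zero, by push_cast; ring⟩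
  have hQm : (Q : ℚ⟦X⟧) ∈ RR := ⟨Q, 0, 1, one_ne_zero, by simp⟩
  obtain ⟨A0, A1, B, hB, hA⟩ := RR.mul_mem (RR.mul_mem hconj hQm) hGF
  refine ⟨A0, A1, B * (P0 ^ 2 - P1 ^ 2 * (1 - 4 * Polynomial.X)), mul_ne_zero hB hN, ?_⟩
  rw [← hA]
  have h4 : ((4 : Polynomial ℚ) : ℚ⟦X⟧) = 4 := map_ofNat Polynomial.coeToPowerSeries.ringHom 4
  push_cast
  rw [h4]
  have e : (B : ℚ⟦X⟧) * (((P0 : ℚ⟦X⟧) - P1 * SS) * Q * (G * F)) =
      B * (((P0 : ℚ⟦X⟧) - P1 * SS) * (Q * G) * F) := by ring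
  rw [e, h]
  linear_combination ((B : ℚ⟦X⟧) * P1 ^ 2 * F) * SS_sq

lemma nakayama {S : Set ℚ⟦X⟧} (hS : S.Finite)
    (h : ∀ f ∈ S, ∃ d ∈ RR, ∃ g ∈ Submodule.span RR S, f = d + X * g) :
    ∀ f ∈ S, f ∈ RR := by
  let x : RR := ⟨X, X_mem⟩
  let I : Ideal RR := Ideal.span {x}
  let N : Submodule RR ℚ⟦X⟧ := Submodule.span RR {1}
  let P : Submodule RR ℚ⟦X⟧ := Submodule.span RR S
  have hP : P.FG := Submodule.fg_span hS
  have hle : P ≤ N ⊔ I • P := by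
    apply Submodule.span_le.2
    intro f hf
    obtain ⟨d, hd, g, hg, rfl⟩ := h f hf
    apply Submodule.add_mem_sup
    · have : d = (⟨d, hd⟩ : RR) • (1 : ℚ⟦X⟧) := by
        change d = d * 1
        ring
      rw [this]
      exact Submodule.smul_mem _ _ (Submodule.mem_span_singleton_self _)
    · exact Submodule.smul_mem_smul (Ideal.mem_span_singleton_self x) hg
  obtain ⟨r, hr, hrP⟩ := Submodule.exists_sub_one_mem_and_smul_le_of_fg_of_le_sup hP le_rfl hle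
  intro f hf
  have h1 : r • f ∈ N := hrP (Submodule.smul_mem_pointwise_smul f r P (Submodule.subset_span hf))
  obtain ⟨a, ha⟩ := Submodule.mem_span_singleton.1 h1
  have h2 : (r : ℚ⟦X⟧) * f ∈ RR := by
    have : (r : ℚ⟦X⟧) * f = a := by
      change (a : ℚ⟦X⟧) * 1 = (r : ℚ⟦X⟧) * f at ha
      rw [← ha]; ring
    rw [this]; exact a.2
  refine div_mem r.2 ?_ h2
  obtain ⟨b, hb⟩ := Ideal.mem_span_singleton'.1 hr
  intro h0
  have h3 : (b : ℚ⟦X⟧) * X = (r : ℚ⟦X⟧) - 1 := congrArg Subtype.val hb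
  rw [h0] at h3
  have h4 := congrArg (constantCoeff (R := ℚ)) h3
  simp at h4

lemma geom {G : ℕ → ℚ⟦X⟧} {H0 : ℕ}
    (h : ∀ H, H0 ≤ H → G (H + 1) = X * (G (H + 2) + 2 * G (H + 1) + G H)) :
    G (H0 + 1) = (Cat - 1) * G H0 := by
  set D : ℕ → ℚ⟦X⟧ := fun H => G (H + 1) - (Cat - 1) * G H with hD
  have hstep : ∀ H, H0 ≤ H → D H = X * (Cat ^ 2 * D (H + 1)) := by
    intro H hH
    have h1 := h H hH
    simp only [hD]
    have hc := Cat_eq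
    linear_combination (Cat ^ 2) * h1 + (G H + (1 + Cat) * G (H + 1)) * hc
  have hdvd : ∀ k H, H0 ≤ H → (X : ℚ⟦X⟧) ^ k ∣ D H := by
    intro k
    induction k with
    | zero => intro H _; simp
    | succ k ih =>
      intro H hH
      rw [hstep H hH, pow_succ']
      exact mul_dvd_mul_left _ (Dvd.dvd.mul_left (ih (H + 1) (by omega)) _)
  have h0 : D H0 = 0 := by
    ext n
    have := (X_pow_dvd_iff.1 (hdvd (n + 1) H0 le_rfl)) n (by omega)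
    simpa using this
  exact sub_eq_zero.1 h0

end Pool.Agent.H720Z.F321
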