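import Pool.Agent.H720Z.F321.Link

set_option maxHeartbeats 400000

namespace Pool.Agent.H720Z.F321

open Finset

variable {n : ℕ}

/-- the point of a permutation in column `i` -/
def pt (σ : Equiv.Perm (Fin n)) (i : Fin n) : ℕ × ℕ := (i.val, (σ i).val)

lemma pt_inj (σ : Equiv.Perm (Fin n)) : Function.Injective (pt σ) := fun _ _ h =>
  Fin.ext (congrArg Prod.fst h)

/-- the graph of a permutation -/
def gr (σ : Equiv.Perm (Fin n)) : Finset (ℕ × ℕ) := univ.image (pt σ)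

lemma mem_gr {σ : Equiv.Perm (Fin n)} {u v : ℕ} :
    (u, v) ∈ gr σ ↔ ∃ i : Fin n, i.val = u ∧ (σ i).val = v := by
  simp [gr, pt]

lemma gr_isC (σ : Equiv.Perm (Fin n)) : IsC 0 n ∅ ∅ (gr σ) := by
  refine ⟨fun i => ?_, fun v => ?_, ?_, ?_, fun _ _ _ => Or.inl (Nat.zero_le _)⟩
  · simp only [notMem_empty, false_or, Nat.zero_le, true_and, mem_gr]
    constructor
    · intro h; exact ⟨_, ⟨i, h⟩, rfl, rfl⟩
    · rintro ⟨_, k, rfl, _⟩; exact k.2
  · simp only [notMem_empty, false_or, Nat.zero_le, true_and, mem_gr]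
    constructor
    · intro h; exact ⟨_, σ.symm ⟨v, h⟩, rfl, by simp⟩
    · rintro ⟨_, k, _, rfl⟩; exact (σ k).2
  · intro i v v' h h'
    obtain ⟨k, e1, rfl⟩ := mem_gr.1 h
    obtain ⟨k', e2, rfl⟩ := mem_gr.1 h'
    rw [Fin.ext (e1.trans e2.symm)]
  · intro i i' v h h'
    obtain ⟨k, rfl, e1⟩ := mem_gr.1 h
    obtain ⟨k', rfl, e2⟩ := mem_gr.1 h'
    rw [σ.injective (Fin.ext (e1.trans e2.symm))]

lemma gr_inj {σ τ : Equiv.Perm (Fin n)} (h : gr σ = gr τ) : σ = τ := by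
  ext i
  have h1 : (i.val, (σ i).val) ∈ gr σ := mem_gr.2 ⟨i, rfl, rfl⟩
  rw [h] at h1
  obtain ⟨k, e1, e2⟩ := mem_gr.1 h1
  rw [← e2, Fin.ext e1]

lemma gr_surj {Γ : Finset (ℕ × ℕ)} (h : IsC 0 n ∅ ∅ Γ) : ∃ σ : Equiv.Perm (Fin n), gr σ = Γ := by
  have h1 : ∀ i : Fin n, ∃ v : Fin n, (i.val, v.val) ∈ Γ := by
    intro i
    obtain ⟨v, hv⟩ := (h.dom i).1 (Or.inr ⟨Nat.zero_le _, i.2⟩)
    rcases (h.ran v).2 ⟨i, hv⟩ with h2 | h2
    · simp at h2
    · exact ⟨⟨v, h2.2⟩, hv⟩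
  choose f hf using h1
  have hinj : Function.Injective f := by
    intro i k e
    have h2 := hf k
    rw [← e] at h2
    exact Fin.ext (h.f2 _ _ _ (hf i) h2)
  refine ⟨Equiv.ofBijective f (Finite.injective_iff_bijective.1 hinj), ?_⟩
  ext ⟨u, v⟩
  rw [mem_gr]
  constructor
  · rintro ⟨i, rfl, rfl⟩
    exact hf i
  · intro huv
    rcases (h.dom u).2 ⟨v, huv⟩ with h2 | h2
    · simp at h2
    · exact ⟨⟨u, h2.2⟩, rfl, h.f1 u _ _ (hf ⟨u, h2.2⟩) huv⟩

/-- larger entries to the left -/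
def LL (σ : Equiv.Perm (Fin n)) (j : Fin n) : ℕ := (univ.filter fun i => i < j ∧ σ j < σ i).card
/-- smaller entries to the right -/
def RR' (σ : Equiv.Perm (Fin n)) (j : Fin n) : ℕ := (univ.filter fun k => j < k ∧ σ k < σ j).card

lemma LR (σ : Equiv.Perm (Fin n)) (j : Fin n) : LL σ j + (σ j).val = RR' σ j + j.val := by
  have h1 : (univ.filter fun i : Fin n => i < j).card = j.val := by
    rw [← Fin.card_Iio]; congr 1; ext i; simp
  have h2 : (univ.filter fun i : Fin n => σ i < σ j).card = (σ j).val := by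
    rw [← Fin.card_Iio]
    refine card_bij (fun i _ => σ i) ?_ ?_ ?_
    · intro i hi; simpa using hi
    · intro i _ k _ e; exact σ.injective e
    · intro v hv
      exact ⟨σ.symm v, by simpa using hv, by simp⟩
  have h3 := card_filter_add_card_filter_not (s := univ.filter fun i : Fin n => i < j)
    (fun i => σ i < σ j)
  have h4 := card_filter_add_card_filter_not (s := univ.filter fun i : Fin n => σ i < σ j)
    (fun i => i < j)
  rw [filter_filter, filter_filter] at h3 h4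
  have e1 : (univ.filter fun i : Fin n => i < j ∧ ¬ σ i < σ j) =
      univ.filter fun i => i < j ∧ σ j < σ i := by
    ext i
    simp only [mem_filter, mem_univ, true_and, not_lt]
    refine and_congr_right fun hi => ⟨fun h => lt_of_le_of_ne h ?_, le_of_lt⟩
    intro e
    exact hi.ne (σ.injective e).symm
  have e2 : (univ.filter fun i : Fin n => σ i < σ j ∧ ¬ i < j) =
      univ.filter fun k => j < k ∧ σ k < σ j := by
    ext i
    simp only [mem_filter, mem_univ, true_and, not_lt]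
    rw [and_comm]
    refine and_congr_left fun hi => ⟨fun h => lt_of_le_of_ne h ?_, le_of_lt⟩
    intro e
    rw [e] at hi
    exact lt_irrefl _ hi
  have e3 : (univ.filter fun i : Fin n => σ i < σ j ∧ i < j) =
      univ.filter fun i => i < j ∧ σ i < σ j := by
    ext i; simp [and_comm]
  rw [e1, h1] at h3
  rw [e2, e3, h2] at h4
  unfold LL RR'
  omega

lemma cost_gr (σ : Equiv.Perm (Fin n)) : cost (gr σ) = ∑ j, LL σ j * RR' σ j := by
  unfold cost gr
  rw [sum_image (fun _ _ _ _ e => pt_inj σ e)]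
  refine sum_congr rfl fun j _ => ?_
  have h1 : Lc (univ.image (pt σ)) (pt σ j) = LL σ j := by
    unfold Lc LL
    rw [filter_image, card_image_of_injective _ (pt_inj σ)]
    rfl
  have h2 : Rc (univ.image (pt σ)) (pt σ j) = RR' σ j := by
    unfold Rc RR'
    rw [filter_image, card_image_of_injective _ (pt_inj σ)]
    rfl
  rw [h1, h2]
  have h3 := LR σ j
  unfold pc pt
  dsimp only
  split_ifs with h
  · congr 1; omega
  · rw [mul_comm]; congr 1; omega

lemma cnt_eq (σ : Equiv.Perm (Fin n)) :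
    ((univ : Finset (Fin n × Fin n × Fin n)).filter (fun p : Fin n × Fin n × Fin n =>
      p.1 < p.2.1 ∧ p.2.1 < p.2.2 ∧ σ p.2.2 < σ p.2.1 ∧ σ p.2.1 < σ p.1)).card =
      ∑ j, LL σ j * RR' σ j := by
  rw [card_filter, Fintype.sum_prod_type]
  simp_rw [Fintype.sum_prod_type]
  rw [sum_comm]
  refine sum_congr rfl fun j _ => ?_
  unfold LL RR'
  rw [card_filter, card_filter, sum_mul_sum]
  refine sum_congr rfl fun i _ => sum_congr rfl fun k _ => ?_
  by_cases h1 : i < j <;> by_cases h2 : j < k <;> by_cases h3 : σ k < σ j <;>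
    by_cases h4 : σ j < σ i <;> simp [h1, h2, h3, h4]

lemma count_eq (n t : ℕ) :
    ((univ : Finset (Equiv.Perm (Fin n))).filter (fun σ : Equiv.Perm (Fin n) =>
      ((univ : Finset (Fin n × Fin n × Fin n)).filter (fun p : Fin n × Fin n × Fin n =>
        p.1 < p.2.1 ∧ p.2.1 < p.2.2 ∧ σ p.2.2 < σ p.2.1 ∧ σ p.2.1 < σ p.1)).card ≤ t)).card =
      W n 0 (fun _ => 0) (fun _ => 0) t := by
  have hs : St 0 0 (fun _ => 0) (fun _ => 0) :=
    ⟨fun _ h => absurd h (by omega), fun _ h => absurd h (by omega),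
      fun _ _ _ h => absurd h (by omega)⟩
  rw [← link n 0 0 _ _ _ _ t hs hs]
  simp only [range_zero, image_empty, zero_add]
  have hm : ∀ Γ, Γ ∈ Comp 0 n ∅ ∅ t ↔ IsC 0 n ∅ ∅ Γ ∧ cost Γ ≤ t := fun Γ =>
    mem_Comp (by simp) (by simp)
  refine card_bij (fun σ _ => gr σ) ?_ ?_ ?_
  · intro σ hσ
    rw [mem_filter, cnt_eq] at hσ
    exact (hm _).2 ⟨gr_isC σ, by rw [cost_gr]; exact hσ.2⟩
  · intro σ _ τ _ e
    exact gr_inj e
  · intro Γ hΓ
    obtain ⟨h1, h2⟩ := (hm _).1 hΓ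
    obtain ⟨σ, rfl⟩ := gr_surj h1
    refine ⟨σ, ?_, rfl⟩
    rw [mem_filter, cnt_eq, ← cost_gr]
    exact ⟨mem_univ _, h2⟩

end Pool.Agent.H720Z.F321
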