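import Pool.Agent.H720Z.F321.Walk

set_option maxHeartbeats 400000

namespace Pool.Agent.H720Z.F321

open Finset

/-- completions of a partial permutation at time `j` -/
structure IsC (j m : ℕ) (A B : Finset ℕ) (Γ : Finset (ℕ × ℕ)) : Prop where
  dom : ∀ i, (i ∈ A ∨ (j ≤ i ∧ i < m)) ↔ ∃ v, (i, v) ∈ Γ
  ran : ∀ v, (v ∈ B ∨ (j ≤ v ∧ v < m)) ↔ ∃ i, (i, v) ∈ Γ
  f1 : ∀ i v v', (i, v) ∈ Γ → (i, v') ∈ Γ → v = v'
  f2 : ∀ i i' v, (i, v) ∈ Γ → (i', v) ∈ Γ → i = i'
  late : ∀ i v, (i, v) ∈ Γ → j ≤ i ∨ j ≤ v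

/-- points to the north west -/
def Lc (Γ : Finset (ℕ × ℕ)) (z : ℕ × ℕ) : ℕ := (Γ.filter fun r => r.1 < z.1 ∧ z.2 < r.2).card
/-- points to the south east -/
def Rc (Γ : Finset (ℕ × ℕ)) (z : ℕ × ℕ) : ℕ := (Γ.filter fun r => z.1 < r.1 ∧ r.2 < z.2).card
/-- cost of a point -/
def pc (L R : ℕ) (z : ℕ × ℕ) : ℕ :=
  if z.1 ≤ z.2 then L * (L + (z.2 - z.1)) else R * (R + (z.1 - z.2))
/-- total cost -/
def cost (Γ : Finset (ℕ × ℕ)) : ℕ := ∑ z ∈ Γ, pc (Lc Γ z) (Rc Γ z) z

open Classical in
/-- cheap completions -/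
noncomputable def Comp (j m : ℕ) (A B : Finset ℕ) (c : ℕ) : Finset (Finset (ℕ × ℕ)) :=
  (range m ×ˢ range m).powerset.filter fun Γ => IsC j m A B Γ ∧ cost Γ ≤ c

lemma mem_Comp {j m : ℕ} {A B : Finset ℕ} {c : ℕ} (hA : ∀ i ∈ A, i < m) (hB : ∀ i ∈ B, i < m)
    {Γ : Finset (ℕ × ℕ)} : Γ ∈ Comp j m A B c ↔ IsC j m A B Γ ∧ cost Γ ≤ c := by
  classical
  unfold Comp
  simp only [mem_filter, mem_powerset]
  refine ⟨fun h => h.2, fun h => ⟨?_, h⟩⟩
  rintro ⟨i, v⟩ hz
  have h1 := (h.1.dom i).2 ⟨v, hz⟩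
  have h2 := (h.1.ran v).2 ⟨i, hz⟩
  rw [mem_product, mem_range, mem_range]
  constructor
  · rcases h1 with h1 | h1
    · exact hA _ h1
    · exact h1.2
  · rcases h2 with h2 | h2
    · exact hB _ h2
    · exact h2.2

/-- a valid move -/
structure IsMv (j : ℕ) (A B A' B' : Finset ℕ) (G : Finset (ℕ × ℕ)) : Prop where
  now : ∀ i v, (i, v) ∈ G → (i = j ∧ v ≤ j) ∨ (v = j ∧ i ≤ j)
  inA : ∀ i v, (i, v) ∈ G → i ∈ A ∨ i = j
  inB : ∀ i v, (i, v) ∈ G → v ∈ B ∨ v = j
  f1 : ∀ i v v', (i, v) ∈ G → (i, v') ∈ G → v = v'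
  f2 : ∀ i i' v, (i, v) ∈ G → (i', v) ∈ G → i = i'
  newA : ∀ i, i ∈ A' ↔ (i ∈ A ∨ i = j) ∧ ¬ ∃ v, (i, v) ∈ G
  newB : ∀ v, v ∈ B' ↔ (v ∈ B ∨ v = j) ∧ ¬ ∃ i, (i, v) ∈ G

section fiber
variable {j m : ℕ} {A B A' B' : Finset ℕ} {G : Finset (ℕ × ℕ)}

lemma glue (hj : j < m) (hA : ∀ i ∈ A, i < j) (hB : ∀ i ∈ B, i < j) (hG : IsMv j A B A' B' G)
    {Γ : Finset (ℕ × ℕ)} (h : IsC (j + 1) m A' B' Γ) : IsC j m A B (Γ ∪ G) := by
  have d1 : ∀ i v v', (i, v) ∈ Γ → (i, v') ∈ G → False := by
    intro i v v' h1 h2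
    rcases (h.dom i).2 ⟨v, h1⟩ with h3 | h3
    · exact ((hG.newA i).1 h3).2 ⟨v', h2⟩
    · have := hG.now i v' h2; omega
  have d2 : ∀ i i' v, (i, v) ∈ Γ → (i', v) ∈ G → False := by
    intro i i' v h1 h2
    rcases (h.ran v).2 ⟨i, h1⟩ with h3 | h3
    · exact ((hG.newB v).1 h3).2 ⟨i', h2⟩
    · have := hG.now i' v h2; omega
  refine ⟨fun i => ⟨fun hi => ?_, ?_⟩, fun v => ⟨fun hv => ?_, ?_⟩, ?_, ?_, ?_⟩
  · by_cases hex : ∃ v, (i, v) ∈ G
    · obtain ⟨v, hv⟩ := hex
      exact ⟨v, mem_union_right _ hv⟩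
    · have : i ∈ A' ∨ (j + 1 ≤ i ∧ i < m) := by
        by_cases hij : i ∈ A ∨ i = j
        · exact Or.inl ((hG.newA i).2 ⟨hij, hex⟩)
        · right
          rcases hi with hi | hi
          · exact absurd (Or.inl hi) hij
          · have : i ≠ j := fun e => hij (Or.inr e)
            omega
      obtain ⟨v, hv⟩ := (h.dom i).1 this
      exact ⟨v, mem_union_left _ hv⟩
  · rintro ⟨v, hv⟩
    rcases mem_union.1 hv with hv | hv
    · rcases (h.dom i).2 ⟨v, hv⟩ with h3 | h3
      · rcases ((hG.newA i).1 h3).1 with h4 | h4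
        · exact Or.inl h4
        · right; omega
      · right; omega
    · rcases hG.inA i v hv with h4 | h4
      · exact Or.inl h4
      · right; omega
  · by_cases hex : ∃ i, (i, v) ∈ G
    · obtain ⟨i, hi⟩ := hex
      exact ⟨i, mem_union_right _ hi⟩
    · have : v ∈ B' ∨ (j + 1 ≤ v ∧ v < m) := by
        by_cases hij : v ∈ B ∨ v = j
        · exact Or.inl ((hG.newB v).2 ⟨hij, hex⟩)
        · right
          rcases hv with hv | hv
          · exact absurd (Or.inl hv) hij
          · have : v ≠ j := fun e => hij (Or.inr e)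
            omega
      obtain ⟨i, hi⟩ := (h.ran v).1 this
      exact ⟨i, mem_union_left _ hi⟩
  · rintro ⟨i, hi⟩
    rcases mem_union.1 hi with hi | hi
    · rcases (h.ran v).2 ⟨i, hi⟩ with h3 | h3
      · rcases ((hG.newB v).1 h3).1 with h4 | h4
        · exact Or.inl h4
        · right; omega
      · right; omega
    · rcases hG.inB i v hi with h4 | h4
      · exact Or.inl h4
      · right; omega
  · intro i v v' h1 h2
    rcases mem_union.1 h1 with h1 | h1 <;> rcases mem_union.1 h2 with h2 | h2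
    · exact h.f1 i v v' h1 h2
    · exact (d1 i v v' h1 h2).elim
    · exact (d1 i v' v h2 h1).elim
    · exact hG.f1 i v v' h1 h2
  · intro i i' v h1 h2
    rcases mem_union.1 h1 with h1 | h1 <;> rcases mem_union.1 h2 with h2 | h2
    · exact h.f2 i i' v h1 h2
    · exact (d2 i i' v h1 h2).elim
    · exact (d2 i' i v h2 h1).elim
    · exact hG.f2 i i' v h1 h2
  · intro i v h1
    rcases mem_union.1 h1 with h1 | h1
    · have := h.late i v h1; omega
    · have := hG.now i v h1; omega

lemma cut (hj : j < m) (hA : ∀ i ∈ A, i < j) (hB : ∀ i ∈ B, i < j) (hG : IsMv j A B A' B' G)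
    {Γ : Finset (ℕ × ℕ)} (h : IsC j m A B Γ)
    (hf : Γ.filter (fun z => z.1 ≤ j ∧ z.2 ≤ j) = G) : IsC (j + 1) m A' B' (Γ \ G) := by
  have hm : ∀ i v, (i, v) ∈ G ↔ (i, v) ∈ Γ ∧ i ≤ j ∧ v ≤ j := by
    intro i v; rw [← hf, mem_filter]
  refine ⟨fun i => ⟨fun hi => ?_, ?_⟩, fun v => ⟨fun hv => ?_, ?_⟩, ?_, ?_, ?_⟩
  · rcases hi with hi | hi
    · obtain ⟨h1, h2⟩ := (hG.newA i).1 hi
      have : i ∈ A ∨ (j ≤ i ∧ i < m) := by
        rcases h1 with h1 | h1
        · exact Or.inl h1
        · right; omega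
      obtain ⟨v, hv⟩ := (h.dom i).1 this
      exact ⟨v, mem_sdiff.2 ⟨hv, fun hg => h2 ⟨v, hg⟩⟩⟩
    · obtain ⟨v, hv⟩ := (h.dom i).1 (Or.inr ⟨by omega, hi.2⟩)
      refine ⟨v, mem_sdiff.2 ⟨hv, fun hg => ?_⟩⟩
      have := (hm i v).1 hg
      omega
  · rintro ⟨v, hv⟩
    obtain ⟨h1, h2⟩ := mem_sdiff.1 hv
    have h3 := (h.dom i).2 ⟨v, h1⟩
    by_cases hij : i ≤ j
    · left
      refine (hG.newA i).2 ⟨?_, ?_⟩
      · rcases h3 with h3 | h3
        · exact Or.inl h3
        · right; omega
      · rintro ⟨v', hv'⟩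
        have := h.f1 i v v' h1 ((hm i v').1 hv').1
        subst this
        exact h2 hv'
    · right
      rcases h3 with h3 | h3
      · have := hA i h3; omega
      · omega
  · rcases hv with hv | hv
    · obtain ⟨h1, h2⟩ := (hG.newB v).1 hv
      have : v ∈ B ∨ (j ≤ v ∧ v < m) := by
        rcases h1 with h1 | h1
        · exact Or.inl h1
        · right; omega
      obtain ⟨i, hi⟩ := (h.ran v).1 this
      exact ⟨i, mem_sdiff.2 ⟨hi, fun hg => h2 ⟨i, hg⟩⟩⟩
    · obtain ⟨i, hi⟩ := (h.ran v).1 (Or.inr ⟨by omega, hv.2⟩)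
      refine ⟨i, mem_sdiff.2 ⟨hi, fun hg => ?_⟩⟩
      have := (hm i v).1 hg
      omega
  · rintro ⟨i, hi⟩
    obtain ⟨h1, h2⟩ := mem_sdiff.1 hi
    have h3 := (h.ran v).2 ⟨i, h1⟩
    by_cases hij : v ≤ j
    · left
      refine (hG.newB v).2 ⟨?_, ?_⟩
      · rcases h3 with h3 | h3
        · exact Or.inl h3
        · right; omega
      · rintro ⟨i', hi'⟩
        have := h.f2 i i' v h1 ((hm i' v).1 hi').1
        subst this
        exact h2 hi'
    · right
      rcases h3 with h3 | h3
      · have := hB v h3; omega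
      · omega
  · intro i v v' h1 h2
    exact h.f1 i v v' (mem_sdiff.1 h1).1 (mem_sdiff.1 h2).1
  · intro i i' v h1 h2
    exact h.f2 i i' v (mem_sdiff.1 h1).1 (mem_sdiff.1 h2).1
  · intro i v h1
    obtain ⟨h2, h3⟩ := mem_sdiff.1 h1
    by_contra hc
    exact h3 ((hm i v).2 ⟨h2, by omega, by omega⟩)

lemma disj (hG : IsMv j A B A' B' G) {Γ : Finset (ℕ × ℕ)} (h : IsC (j + 1) m A' B' Γ) :
    Disjoint Γ G := by
  rw [disjoint_left]
  rintro ⟨i, v⟩ h1 h2
  have := h.late i v h1
  have := hG.now i v h2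
  omega

lemma cost_glue (hj : j < m) (hA : ∀ i ∈ A, i < j) (hB : ∀ i ∈ B, i < j)
    (hG : IsMv j A B A' B' G) {Γ : Finset (ℕ × ℕ)} (h : IsC (j + 1) m A' B' Γ) :
    cost (Γ ∪ G) = cost Γ +
      ∑ z ∈ G, pc (A.filter (· < z.1)).card (B.filter (· < z.2)).card z := by
  have hC := glue hj hA hB hG h
  unfold cost
  rw [sum_union (disj hG h)]
  congr 1
  · refine sum_congr rfl ?_
    rintro ⟨i, v⟩ hz
    have hl := h.late i v hz
    unfold pc
    dsimp only
    split_ifs with hiv
    · have : Lc (Γ ∪ G) (i, v) = Lc Γ (i, v) := by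
        unfold Lc
        congr 1
        ext ⟨a, b⟩
        simp only [mem_filter, mem_union]
        constructor
        · rintro ⟨h1 | h1, h2⟩
          · exact ⟨h1, h2⟩
          · have := hG.now a b h1; omega
        · rintro ⟨h1, h2⟩; exact ⟨Or.inl h1, h2⟩
      rw [this]
    · have : Rc (Γ ∪ G) (i, v) = Rc Γ (i, v) := by
        unfold Rc
        congr 1
        ext ⟨a, b⟩
        simp only [mem_filter, mem_union]
        constructor
        · rintro ⟨h1 | h1, h2⟩
          · exact ⟨h1, h2⟩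
          · have := hG.now a b h1; omega
        · rintro ⟨h1, h2⟩; exact ⟨Or.inl h1, h2⟩
      rw [this]
  · refine sum_congr rfl ?_
    rintro ⟨i, v⟩ hz
    have hn := hG.now i v hz
    have hz' : (i, v) ∈ Γ ∪ G := mem_union_right _ hz
    unfold pc
    dsimp only
    split_ifs with hiv
    · have : Lc (Γ ∪ G) (i, v) = (A.filter (· < i)).card := by
        unfold Lc
        refine card_bij (fun r _ => r.1) ?_ ?_ ?_
        · rintro ⟨a, b⟩ hr
          simp only [mem_filter] at hr ⊢
          refine ⟨?_, hr.2.1⟩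
          rcases (hC.dom a).2 ⟨b, hr.1⟩ with h3 | h3
          · exact h3
          · omega
        · rintro ⟨a, b⟩ hr ⟨a', b'⟩ hr' e
          simp only [mem_filter] at hr hr' e
          subst e
          rw [hC.f1 a b b' hr.1 hr'.1]
        · intro a ha
          rw [mem_filter] at ha
          obtain ⟨b, hb⟩ := (hC.dom a).1 (Or.inl ha.1)
          refine ⟨(a, b), mem_filter.2 ⟨hb, ha.2, ?_⟩, rfl⟩
          have h1 := hC.late a b hb
          have h2 := hA a ha.1
          have h3 : b ≠ v := fun e => by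
            subst e
            have := hC.f2 a i b hb hz'
            omega
          dsimp only
          omega
      rw [this]
    · have : Rc (Γ ∪ G) (i, v) = (B.filter (· < v)).card := by
        unfold Rc
        refine card_bij (fun r _ => r.2) ?_ ?_ ?_
        · rintro ⟨a, b⟩ hr
          simp only [mem_filter] at hr ⊢
          refine ⟨?_, hr.2.2⟩
          rcases (hC.ran b).2 ⟨a, hr.1⟩ with h3 | h3
          · exact h3
          · omega
        · rintro ⟨a, b⟩ hr ⟨a', b'⟩ hr' e
          simp only [mem_filter] at hr hr' e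
          subst e
          rw [hC.f2 a a' b hr.1 hr'.1]
        · intro b hb
          rw [mem_filter] at hb
          obtain ⟨a, ha⟩ := (hC.ran b).1 (Or.inl hb.1)
          refine ⟨(a, b), mem_filter.2 ⟨ha, ?_, hb.2⟩, rfl⟩
          have h1 := hC.late a b ha
          have h2 := hB b hb.1
          have h3 : a ≠ i := fun e => by
            subst e
            have := hC.f1 a b v ha hz'
            omega
          dsimp only
          omega
      rw [this]

lemma fiber (hj : j < m) (hA : ∀ i ∈ A, i < j) (hB : ∀ i ∈ B, i < j)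
    (hG : IsMv j A B A' B' G) (c k : ℕ)
    (hk : ∑ z ∈ G, pc (A.filter (· < z.1)).card (B.filter (· < z.2)).card z = k) :
    ((Comp j m A B c).filter
      (fun Γ => Γ.filter (fun z => z.1 ≤ j ∧ z.2 ≤ j) = G)).card =
      if k ≤ c then (Comp (j + 1) m A' B' (c - k)).card else 0 := by
  have hAm : ∀ i ∈ A, i < m := fun i hi => (hA i hi).trans hj
  have hBm : ∀ i ∈ B, i < m := fun i hi => (hB i hi).trans hj
  have hAm' : ∀ i ∈ A', i < m := fun i hi => by
    rcases ((hG.newA i).1 hi).1 with h | h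
    · exact hAm i h
    · omega
  have hBm' : ∀ i ∈ B', i < m := fun i hi => by
    rcases ((hG.newB i).1 hi).1 with h | h
    · exact hBm i h
    · omega
  have key : ∀ Γ ∈ (Comp j m A B c).filter
      (fun Γ => Γ.filter (fun z => z.1 ≤ j ∧ z.2 ≤ j) = G),
      IsC (j + 1) m A' B' (Γ \ G) ∧ Γ \ G ∪ G = Γ ∧ cost (Γ \ G) + k ≤ c := by
    intro Γ hΓ
    obtain ⟨h1, h2⟩ := mem_filter.1 hΓ
    obtain ⟨h3, h4⟩ := (mem_Comp hAm hBm).1 h1
    have h5 := cut hj hA hB hG h3 h2
    have h6 : Γ \ G ∪ G = Γ := sdiff_union_of_subset (by rw [← h2]; exact filter_subset _ _)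
    refine ⟨h5, h6, ?_⟩
    have h7 := cost_glue hj hA hB hG h5
    rw [h6, hk] at h7
    omega
  split_ifs with hkc
  · refine card_bij (fun Γ _ => Γ \ G) ?_ ?_ ?_
    · intro Γ hΓ
      obtain ⟨h1, _, h3⟩ := key Γ hΓ
      exact (mem_Comp hAm' hBm').2 ⟨h1, by omega⟩
    · intro Γ hΓ Γ' hΓ' e
      rw [← (key Γ hΓ).2.1, ← (key Γ' hΓ').2.1]
      exact congrArg (· ∪ G) e
    · intro Γ hΓ
      obtain ⟨h1, h2⟩ := (mem_Comp hAm' hBm').1 hΓ
      refine ⟨Γ ∪ G, mem_filter.2 ⟨(mem_Comp hAm hBm).2 ⟨glue hj hA hB hG h1, ?_⟩, ?_⟩, ?_⟩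
      · rw [cost_glue hj hA hB hG h1, hk]; omega
      · ext ⟨i, v⟩
        simp only [mem_filter, mem_union]
        constructor
        · rintro ⟨h3 | h3, h4⟩
          · have := h1.late i v h3; omega
          · exact h3
        · intro h3
          have := hG.now i v h3
          exact ⟨Or.inr h3, by omega, by omega⟩
      · exact union_sdiff_cancel_right (disj hG h1)
  · rw [card_eq_zero, eq_empty_iff_forall_notMem]
    intro Γ hΓ
    have := (key Γ hΓ).2.2
    omega

end fiber

/-- positions after one step -/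
def nxp (j H : ℕ) (p : ℕ → ℕ) (x : ℕ) (i : ℕ) : ℕ :=
  if i < x then p i else if i + 1 < H then p (i + 1) else j

/-- positions `p` and ages `a` describe the same state at time `j` -/
structure St (j H : ℕ) (p a : ℕ → ℕ) : Prop where
  age : ∀ i < H, a i + p i = j
  lt : ∀ i < H, p i < j
  mono : ∀ i k, i < k → k < H → p i < p k

lemma St.inj {j H : ℕ} {p a : ℕ → ℕ} (h : St j H p a) {i k : ℕ} (hi : i < H) (hk : k < H)
    (e : p i = p k) : i = k := by
  rcases lt_trichotomy i k with h1 | h1 | h1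
  · have := h.mono i k h1 hk; omega
  · exact h1
  · have := h.mono k i h1 hi; omega

lemma St.nxt {j H : ℕ} {p a : ℕ → ℕ} (h : St j H p a) {x : ℕ} (hx : x ≤ H) (y : ℕ) :
    St (j + 1) (nh H x y) (nxp j H p x) (nxt H a x) := by
  refine ⟨fun i hi => ?_, fun i hi => ?_, fun i k hik hk => ?_⟩
  · unfold nxp F321.nxt
    have h1 := h.age i
    have h2 := h.age (i + 1)
    split_ifs <;> omega
  · unfold nxp
    have h1 := h.lt i
    have h2 := h.lt (i + 1)
    split_ifs <;> omega
  · unfold nh at hk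
    unfold nxp
    have h1 := h.lt i
    have h2 := h.lt (i + 1)
    have h3 := h.mono i k
    have h4 := h.mono i (k + 1)
    have h5 := h.mono (i + 1) (k + 1)
    split_ifs at hk ⊢ <;> omega

lemma St.nxt_fix {j H : ℕ} {p a : ℕ → ℕ} (h : St j H p a) :
    St (j + 1) H p (F321.nxt H a H) := by
  refine ⟨fun i hi => ?_, fun i hi => ?_, h.mono⟩
  · unfold F321.nxt
    have h1 := h.age i
    split_ifs <;> omega
  · have h1 := h.lt i hi
    omega

lemma St.card_lt {j H : ℕ} {p a : ℕ → ℕ} (h : St j H p a) {x u : ℕ} (hx : x ≤ H)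
    (hu : ∀ i < H, p i < u ↔ i < x) : (((range H).image p).filter (· < u)).card = x := by
  have : ((range H).image p).filter (· < u) = (range x).image p := by
    ext v
    simp only [mem_filter, mem_image, mem_range]
    constructor
    · rintro ⟨⟨i, hi, rfl⟩, h2⟩
      exact ⟨i, (hu i hi).1 h2, rfl⟩
    · rintro ⟨i, hi, rfl⟩
      exact ⟨⟨i, by omega, rfl⟩, (hu i (by omega)).2 hi⟩
  rw [this, card_image_of_injOn, card_range]
  intro i hi k hk e
  rw [coe_range, Set.mem_Iio] at hi hk
  exact h.inj (by omega) (by omega) e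

lemma St.mem_nxp {j H : ℕ} {p a : ℕ → ℕ} (h : St j H p a) {x y : ℕ} (hx : x ≤ H) (hy : y ≤ H)
    (u : ℕ) : u ∈ (range (nh H x y)).image (nxp j H p x) ↔
      (u ∈ (range H).image p ∨ u = j) ∧ ¬ (x < H ∧ u = p x) ∧ ¬ (y < H ∧ u = j) := by
  simp only [mem_image, mem_range]
  constructor
  · rintro ⟨i, hi, rfl⟩
    unfold nh at hi
    unfold nxp
    by_cases h1 : i < x
    · rw [if_pos h1]
      have := h.lt i (by omega)
      refine ⟨Or.inl ⟨i, by omega, rfl⟩, fun e => ?_, fun e => by omega⟩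
      have := h.inj (by omega) e.1 e.2
      omega
    · rw [if_neg h1]
      by_cases h2 : i + 1 < H
      · rw [if_pos h2]
        have := h.lt (i + 1) h2
        refine ⟨Or.inl ⟨i + 1, h2, rfl⟩, fun e => ?_, fun e => by omega⟩
        have := h.inj h2 e.1 e.2
        omega
      · rw [if_neg h2]
        refine ⟨Or.inr rfl, fun e => ?_, fun e => ?_⟩
        · have := h.lt x e.1; omega
        · split_ifs at hi <;> omega
  · rintro ⟨h1 | h1, h2, h3⟩
    · obtain ⟨i, hi, rfl⟩ := h1
      have hix : i ≠ x := fun e => h2 ⟨by omega, by rw [e]⟩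
      by_cases h4 : i < x
      · refine ⟨i, ?_, by simp [nxp, h4]⟩
        unfold nh; split_ifs <;> omega
      · refine ⟨i - 1, ?_, ?_⟩
        · unfold nh; split_ifs <;> omega
        · unfold nxp
          rw [if_neg (by omega), if_pos (by omega)]
          congr 1; omega
    · subst h1
      have hy' : ¬ y < H := fun e => h3 ⟨e, rfl⟩
      refine ⟨nh H x y - 1, ?_, ?_⟩
      · unfold nh; split_ifs <;> omega
      · unfold nxp nh
        split_ifs <;> omega

/-- the arcs closed by a non-fixed move -/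
def mv (j H : ℕ) (p q : ℕ → ℕ) (x y : ℕ) : Finset (ℕ × ℕ) :=
  (if x < H then {(p x, j)} else ∅) ∪ (if y < H then {(j, q y)} else ∅)

lemma mem_mv {j H : ℕ} {p q : ℕ → ℕ} {x y u v : ℕ} : (u, v) ∈ mv j H p q x y ↔
    (x < H ∧ u = p x ∧ v = j) ∨ (y < H ∧ u = j ∧ v = q y) := by
  unfold mv
  by_cases hx : x < H <;> by_cases hy : y < H <;> simp [hx, hy]

lemma mv_isMv {j H : ℕ} {p q a b : ℕ → ℕ} (hp : St j H p a) (hq : St j H q b) {x y : ℕ}
    (hx : x ≤ H) (hy : y ≤ H) :
    IsMv j ((range H).image p) ((range H).image q) ((range (nh H x y)).image (nxp j H p x))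
      ((range (nh H x y)).image (nxp j H q y)) (mv j H p q x y) := by
  have e1 := hp.lt x
  have e2 := hq.lt y
  refine ⟨fun i v h => ?_, fun i v h => ?_, fun i v h => ?_, fun i v v' h h' => ?_,
    fun i i' v h h' => ?_, fun i => ?_, fun v => ?_⟩
  · rw [mem_mv] at h; omega
  · rw [mem_mv] at h
    rcases h with h | h
    · exact Or.inl (mem_image.2 ⟨x, mem_range.2 h.1, h.2.1.symm⟩)
    · exact Or.inr h.2.1
  · rw [mem_mv] at h
    rcases h with h | h
    · exact Or.inr h.2.2
    · exact Or.inl (mem_image.2 ⟨y, mem_range.2 h.1, h.2.2.symm⟩)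
  · rw [mem_mv] at h h'; omega
  · rw [mem_mv] at h h'; omega
  · rw [hp.mem_nxp hx hy]
    refine and_congr_right fun _ => ?_
    simp only [mem_mv]
    constructor
    · rintro ⟨h1, h2⟩ ⟨v, h3⟩
      omega
    · intro h
      exact ⟨fun e => h ⟨j, Or.inl ⟨e.1, e.2, rfl⟩⟩, fun e => h ⟨q y, Or.inr ⟨e.1, e.2, rfl⟩⟩⟩
  · rw [nh_comm, hq.mem_nxp hy hx]
    refine and_congr_right fun _ => ?_
    simp only [mem_mv]
    constructor
    · rintro ⟨h1, h2⟩ ⟨i, h3⟩
      omega
    · intro h
      exact ⟨fun e => h ⟨j, Or.inr ⟨e.1, rfl, e.2⟩⟩, fun e => h ⟨p x, Or.inl ⟨e.1, rfl, e.2⟩⟩⟩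

lemma mv_cost {j H : ℕ} {p q a b : ℕ → ℕ} (hp : St j H p a) (hq : St j H q b) (x y : ℕ) :
    ∑ z ∈ mv j H p q x y, pc (((range H).image p).filter (· < z.1)).card
      (((range H).image q).filter (· < z.2)).card z = cst H a x + cst H b y := by
  unfold mv
  rw [sum_union]
  · congr 1
    · unfold cst
      split_ifs with hx
      · rw [sum_singleton]
        have e1 := hp.lt x hx
        have e2 := hp.age x hx
        unfold pc
        dsimp only
        rw [if_pos e1.le, hp.card_lt hx.le (u := p x)]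
        · congr 2; omega
        · intro i hi
          constructor
          · intro h
            by_contra hc
            rcases Nat.eq_or_lt_of_le (not_lt.1 hc) with h1 | h1
            · subst h1; omega
            · have := hp.mono x i h1 hi; omega
          · intro h; exact hp.mono i x h hx
      · simp
    · unfold cst
      split_ifs with hy
      · rw [sum_singleton]
        have e1 := hq.lt y hy
        have e2 := hq.age y hy
        unfold pc
        dsimp only
        rw [if_neg (by omega), hq.card_lt hy.le (u := q y)]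
        · congr 2; omega
        · intro i hi
          constructor
          · intro h
            by_contra hc
            rcases Nat.eq_or_lt_of_le (not_lt.1 hc) with h1 | h1
            · subst h1; omega
            · have := hq.mono y i h1 hi; omega
          · intro h; exact hq.mono i y h hy
      · simp
  · split_ifs with hx hy
    · have := hp.lt x hx
      rw [disjoint_singleton]
      intro e
      have := congrArg Prod.fst e
      dsimp only at this
      omega
    all_goals simp

lemma mv_le1 {j H : ℕ} {p q a : ℕ → ℕ} (hp : St j H p a) {x y x' y' : ℕ} (hx : x' < H + 1)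
    (e : mv j H p q x y = mv j H p q x' y') : x' ≤ x := by
  by_cases h1 : x < H
  · have h2 : (p x, j) ∈ mv j H p q x y := mem_mv.2 (Or.inl ⟨h1, rfl, rfl⟩)
    rw [e, mem_mv] at h2
    rcases h2 with h2 | h2
    · exact (hp.inj h1 h2.1 h2.2.1).ge
    · have := hp.lt x h1
      omega
  · omega

lemma mv_le2 {j H : ℕ} {p q b : ℕ → ℕ} (hq : St j H q b) {x y x' y' : ℕ} (hy : y' < H + 1)
    (e : mv j H p q x y = mv j H p q x' y') : y' ≤ y := by
  by_cases h1 : y < H
  · have h2 : (j, q y) ∈ mv j H p q x y := mem_mv.2 (Or.inr ⟨h1, rfl, rfl⟩)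
    rw [e, mem_mv] at h2
    rcases h2 with h2 | h2
    · have := hq.lt y h1
      omega
    · exact (hq.inj h1 h2.1 h2.2.2).ge
  · omega

lemma link : ∀ (n j H : ℕ) (p q a b : ℕ → ℕ) (c : ℕ), St j H p a → St j H q b →
    (Comp j (j + n) ((range H).image p) ((range H).image q) c).card = W n H a b c := by
  intro n
  induction n with
  | zero =>
    intro j H p q a b c hp hq
    have hA : ∀ i ∈ (range H).image p, i < j + 0 := by
      intro i hi
      obtain ⟨k, hk, rfl⟩ := mem_image.1 hi
      exact hp.lt k (mem_range.1 hk)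
    have hB : ∀ i ∈ (range H).image q, i < j + 0 := by
      intro i hi
      obtain ⟨k, hk, rfl⟩ := mem_image.1 hi
      exact hq.lt k (mem_range.1 hk)
    have hemp : ∀ Γ, IsC j (j + 0) ((range H).image p) ((range H).image q) Γ → Γ = ∅ := by
      intro Γ h
      rw [eq_empty_iff_forall_notMem]
      rintro ⟨i, v⟩ hz
      have h1 := (h.dom i).2 ⟨v, hz⟩
      have h2 := (h.ran v).2 ⟨i, hz⟩
      have h3 := h.late i v hz
      have h4 := hA i
      have h5 := hB v
      rcases h1 with h1 | h1 <;> rcases h2 with h2 | h2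
      · have := h4 h1; have := h5 h2; omega
      all_goals omega
    unfold W
    split_ifs with h0
    · rw [card_eq_one]
      refine ⟨∅, ?_⟩
      ext Γ
      rw [mem_Comp hA hB, mem_singleton]
      constructor
      · exact fun h => hemp Γ h.1
      · rintro rfl
        subst h0
        refine ⟨⟨fun i => ?_, fun v => ?_, by simp, by simp, by simp⟩, by simp [cost]⟩
        · simp
        · simp
    · rw [card_eq_zero, eq_empty_iff_forall_notMem]
      intro Γ hΓ
      have h := ((mem_Comp hA hB).1 hΓ).1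
      have h1 := (h.dom (p 0)).1 (Or.inl (mem_image.2 ⟨0, mem_range.2 (by omega), rfl⟩))
      rw [hemp Γ h] at h1
      simp at h1
  | succ n ih =>
    intro j H p q a b c hp hq
    set A := (range H).image p with hAdef
    set B := (range H).image q with hBdef
    have hA : ∀ i ∈ A, i < j := by
      intro i hi
      obtain ⟨k, hk, rfl⟩ := mem_image.1 hi
      exact hp.lt k (mem_range.1 hk)
    have hB : ∀ i ∈ B, i < j := by
      intro i hi
      obtain ⟨k, hk, rfl⟩ := mem_image.1 hi
      exact hq.lt k (mem_range.1 hk)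
    have hj : j < j + (n + 1) := by omega
    have hm : j + (n + 1) = j + 1 + n := by omega
    let T : Finset (Finset (ℕ × ℕ)) := insert {(j, j)}
      ((range (H + 1) ×ˢ range (H + 1)).image fun xy => mv j H p q xy.1 xy.2)
    have hmaps : ∀ Γ ∈ Comp j (j + (n + 1)) A B c,
        Γ.filter (fun z => z.1 ≤ j ∧ z.2 ≤ j) ∈ T := by
      intro Γ hΓ
      have h := ((mem_Comp (fun i hi => (hA i hi).trans hj)
        (fun i hi => (hB i hi).trans hj)).1 hΓ).1
      obtain ⟨v0, hv0⟩ := (h.dom j).1 (Or.inr ⟨le_rfl, hj⟩)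
      obtain ⟨i0, hi0⟩ := (h.ran j).1 (Or.inr ⟨le_rfl, hj⟩)
      have hchar : ∀ u v, (u, v) ∈ Γ.filter (fun z => z.1 ≤ j ∧ z.2 ≤ j) ↔
          (u = i0 ∧ v = j ∧ i0 ≤ j) ∨ (u = j ∧ v = v0 ∧ v0 ≤ j) := by
        intro u v
        rw [mem_filter]
        dsimp only
        constructor
        · rintro ⟨h1, h2, h3⟩
          rcases h.late u v h1 with h4 | h4
          · have e : u = j := by omega
            subst e
            have := h.f1 u v v0 h1 hv0
            right; omega
          · have e : v = j := by omega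
            subst e
            have := h.f2 u i0 v h1 hi0
            left; omega
        · rintro (⟨rfl, rfl, h3⟩ | ⟨rfl, rfl, h3⟩)
          · exact ⟨hi0, h3, le_rfl⟩
          · exact ⟨hv0, le_rfl, h3⟩
      by_cases hfix : v0 = j
      · have : i0 = j := by
          rw [hfix] at hv0
          exact h.f2 i0 j j hi0 hv0
        apply mem_insert.2
        left
        ext ⟨u, v⟩
        rw [hchar, mem_singleton, Prod.mk.injEq]
        omega
      · have hi0j : i0 ≠ j := fun e => by
          rw [e] at hi0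
          exact hfix (h.f1 j v0 j hv0 hi0)
        have hx : ∃ x ≤ H, (x < H ↔ i0 ≤ j) ∧ (x < H → i0 = p x) := by
          by_cases hlt : i0 ≤ j
          · rcases (h.dom i0).2 ⟨j, hi0⟩ with h3 | h3
            · obtain ⟨k, hk, e⟩ := mem_image.1 h3
              have := mem_range.1 hk
              exact ⟨k, by omega, by omega, fun _ => e.symm⟩
            · omega
          · exact ⟨H, le_rfl, by omega, by omega⟩
        have hy : ∃ y ≤ H, (y < H ↔ v0 ≤ j) ∧ (y < H → v0 = q y) := by
          by_cases hlt : v0 ≤ j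
          · rcases (h.ran v0).2 ⟨j, hv0⟩ with h3 | h3
            · obtain ⟨k, hk, e⟩ := mem_image.1 h3
              have := mem_range.1 hk
              exact ⟨k, by omega, by omega, fun _ => e.symm⟩
            · omega
          · exact ⟨H, le_rfl, by omega, by omega⟩
        obtain ⟨x, hx1, hx2, hx3⟩ := hx
        obtain ⟨y, hy1, hy2, hy3⟩ := hy
        apply mem_insert.2
        right
        refine mem_image.2 ⟨(x, y), mem_product.2 ⟨mem_range.2 (by dsimp only; omega),
          mem_range.2 (by dsimp only; omega)⟩, ?_⟩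
        ext ⟨u, v⟩
        rw [hchar, mem_mv]
        dsimp only
        omega
    rw [card_eq_sum_card_fiberwise hmaps]
    have hnot : ({(j, j)} : Finset (ℕ × ℕ)) ∉
        (range (H + 1) ×ˢ range (H + 1)).image fun xy => mv j H p q xy.1 xy.2 := by
      intro hmem
      obtain ⟨⟨x, y⟩, _, e⟩ := mem_image.1 hmem
      have h1 : (j, j) ∈ mv j H p q x y := by
        dsimp only at e
        rw [e]; exact mem_singleton_self _
      rw [mem_mv] at h1
      have e1 := hp.lt x
      have e2 := hq.lt y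
      omega
    rw [sum_insert hnot, sum_image, sum_product]
    · unfold W
      congr 1
      · have hG : IsMv j A B A B {(j, j)} := by
          refine ⟨?_, ?_, ?_, ?_, ?_, fun i => ?_, fun i => ?_⟩
          · intro i v h; rw [mem_singleton, Prod.mk.injEq] at h; omega
          · intro i v h; rw [mem_singleton, Prod.mk.injEq] at h; exact Or.inr h.1
          · intro i v h; rw [mem_singleton, Prod.mk.injEq] at h; exact Or.inr h.2
          · intro i v v' h h'; rw [mem_singleton, Prod.mk.injEq] at h h'; omega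
          · intro i v v' h h'; rw [mem_singleton, Prod.mk.injEq] at h h'; omega
          · simp only [mem_singleton, Prod.mk.injEq]
            constructor
            · intro hi
              have := hA i hi
              exact ⟨Or.inl hi, fun ⟨_, e⟩ => by omega⟩
            · rintro ⟨h1 | h1, h2⟩
              · exact h1
              · exact absurd ⟨j, h1, rfl⟩ h2
          · simp only [mem_singleton, Prod.mk.injEq]
            constructor
            · intro hi
              have := hB i hi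
              exact ⟨Or.inl hi, fun ⟨_, e⟩ => by omega⟩
            · rintro ⟨h1 | h1, h2⟩
              · exact h1
              · exact absurd ⟨j, rfl, h1⟩ h2
        rw [fiber hj hA hB hG c (H * H), hm, ih (j + 1) H p q _ _ _ hp.nxt_fix hq.nxt_fix]
        rw [sum_singleton]
        unfold pc
        dsimp only
        rw [if_pos le_rfl, hp.card_lt le_rfl (u := j)]
        · simp
        · intro i hi
          have := hp.lt i hi
          omega
      · refine sum_congr rfl fun x hx => sum_congr rfl fun y hy => ?_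
        have hx' : x ≤ H := by have := mem_range.1 hx; omega
        have hy' : y ≤ H := by have := mem_range.1 hy; omega
        dsimp only
        rw [fiber hj hA hB (mv_isMv hp hq hx' hy') c _ (mv_cost hp hq x y), hm,
          ih (j + 1) _ _ _ _ _ _ (hp.nxt hx' y) (by rw [nh_comm]; exact hq.nxt hy' x)]
    · rintro ⟨x, y⟩ hxy ⟨x', y'⟩ hxy' e
      simp only [coe_product, coe_range, Set.mem_prod, Set.mem_Iio] at hxy hxy'
      dsimp only at e
      rw [Prod.mk.injEq]
      exact ⟨le_antisymm (mv_le1 hp hxy.1 e.symm) (mv_le1 hp hxy'.1 e),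
        le_antisymm (mv_le2 hq hxy.2 e.symm) (mv_le2 hq hxy'.2 e)⟩

end Pool.Agent.H720Z.F321
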