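import Pool.Agent.H720Z.F321.Alg

namespace Pool.Agent.H720Z.F321

open PowerSeries Finset

/-- cost of closing the pending arc number `x` -/
def cst (H : ℕ) (a : ℕ → ℕ) (x : ℕ) : ℕ := if x < H then x * (x + a x) else 0

/-- ages after one step -/
def nxt (H : ℕ) (a : ℕ → ℕ) (x : ℕ) (i : ℕ) : ℕ :=
  if i < x then a i + 1 else if i + 1 < H then a (i + 1) + 1 else 1

/-- height after one step -/
def nh (H x y : ℕ) : ℕ := H + 1 - (if x < H then 1 else 0) - (if y < H then 1 else 0)

/-- number of completions with cost at most `c` -/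
def W : ℕ → ℕ → (ℕ → ℕ) → (ℕ → ℕ) → ℕ → ℕ
  | 0, H, _, _, _ => if H = 0 then 1 else 0
  | n + 1, H, a, b, c =>
    (if H * H ≤ c then W n H (nxt H a H) (nxt H b H) (c - H * H) else 0) +
      ∑ x ∈ range (H + 1), ∑ y ∈ range (H + 1),
        if cst H a x + cst H b y ≤ c then
          W n (nh H x y) (nxt H a x) (nxt H b y) (c - (cst H a x + cst H b y)) else 0

/-- ages are large enough -/
def Val (H : ℕ) (a : ℕ → ℕ) : Prop := ∀ i < H, H ≤ i + a i

lemma nh_comm (H x y : ℕ) : nh H x y = nh H y x := by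
  unfold nh; split_ifs <;> omega

lemma Val.nxt {H : ℕ} {a : ℕ → ℕ} (h : Val H a) {x : ℕ} (hx : x ≤ H) (y : ℕ) :
    Val (nh H x y) (nxt H a x) := by
  intro i hi
  unfold nh at hi ⊢
  unfold F321.nxt
  have h1 := h i
  have h2 := h (i + 1)
  split_ifs at hi ⊢ <;> omega

lemma Val.nxt_fix {H : ℕ} {a : ℕ → ℕ} (h : Val H a) : Val H (F321.nxt H a H) := by
  intro i hi
  unfold F321.nxt
  have h1 := h i
  split_ifs <;> omega

/-- agreement of truncated ages -/
def Agr (H T s : ℕ) (a a' : ℕ → ℕ) : Prop := ∀ i < H, min (a i + s) T = min (a' i + s) T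

lemma Agr.nxt {H T s : ℕ} {a a' : ℕ → ℕ} (h : Agr H T s a a') {x : ℕ} (hx : x ≤ H) (H' : ℕ) :
    Agr H' T (s - 1) (nxt H a x) (nxt H a' x) := by
  intro i _
  unfold F321.nxt
  have h1 := h i
  have h2 := h (i + 1)
  split_ifs <;> omega

lemma cst_big {H : ℕ} {a : ℕ → ℕ} (h : Val H a) {x : ℕ} (h0 : x ≠ 0) (hx : x < H) :
    H ≤ cst H a x := by
  unfold cst
  rw [if_pos hx]
  calc H ≤ x + a x := h x hx
    _ ≤ x * (x + a x) := Nat.le_mul_of_pos_left _ (by omega)

lemma cst_agr {H T s c : ℕ} {a a' : ℕ → ℕ} (hc : c < T) (hs : s = 0 ∨ s + c ≤ H) (hv : Val H a)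
    (hv' : Val H a') (h : Agr H T s a a') (x : ℕ) :
    cst H a x = cst H a' x ∨ (c < cst H a x ∧ c < cst H a' x) := by
  by_cases hx : x < H
  swap
  · left; simp [cst, hx]
  by_cases h0 : x = 0
  · left; simp [cst, h0]
  by_cases hs0 : s = 0
  · have h1 := h x hx
    by_cases he : a x = a' x
    · left; simp [cst, he]
    · right
      unfold cst
      rw [if_pos hx, if_pos hx]
      have e1 : x + a x ≤ x * (x + a x) := Nat.le_mul_of_pos_left _ (by omega)
      have e2 : x + a' x ≤ x * (x + a' x) := Nat.le_mul_of_pos_left _ (by omega)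
      omega
  · right
    have e1 := cst_big hv h0 hx
    have e2 := cst_big hv' h0 hx
    omega

lemma W_rel (T : ℕ) : ∀ (n H : ℕ) (a b a' b' : ℕ → ℕ) (c s : ℕ), c < T → (s = 0 ∨ s + c ≤ H) →
    Val H a → Val H b → Val H a' → Val H b' → Agr H T s a a' → Agr H T s b b' →
    W n H a b c = W n H a' b' c := by
  intro n
  induction n with
  | zero => intros; rfl
  | succ n ih =>
    intro H a b a' b' c s hc hs va vb va' vb' ha hb
    unfold W
    congr 1
    · split_ifs with h
      · exact ih H _ _ _ _ _ (s - 1) (by omega) (by omega) va.nxt_fix vb.nxt_fix va'.nxt_fix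
          vb'.nxt_fix (ha.nxt le_rfl H) (hb.nxt le_rfl H)
      · rfl
    · refine sum_congr rfl fun x hx => sum_congr rfl fun y hy => ?_
      have hx' : x ≤ H := by have := mem_range.1 hx; omega
      have hy' : y ≤ H := by have := mem_range.1 hy; omega
      rcases cst_agr hc hs va va' ha x with e1 | e1
      · rcases cst_agr hc hs vb vb' hb y with e2 | e2
        · rw [e1, e2]
          split_ifs with h
          · refine ih _ _ _ _ _ _ (s - 1) (by omega) ?_ (va.nxt hx' y)
              (by rw [nh_comm]; exact vb.nxt hy' x) (va'.nxt hx' y)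
              (by rw [nh_comm]; exact vb'.nxt hy' x) (ha.nxt hx' _) (hb.nxt hy' _)
            unfold nh
            split_ifs <;> omega
          · rfl
        · rw [if_neg (by omega), if_neg (by omega)]
      · rw [if_neg (by omega), if_neg (by omega)]

/-- generating function of completions -/
noncomputable def FF (H : ℕ) (a b : ℕ → ℕ) (c : ℕ) : ℚ⟦X⟧ :=
  PowerSeries.mk fun n => (W n H a b c : ℚ)

lemma FF_eq (H : ℕ) (a b : ℕ → ℕ) (c : ℕ) : FF H a b c = (if H = 0 then 1 else 0) +
    X * ((if H * H ≤ c then FF H (nxt H a H) (nxt H b H) (c - H * H) else 0) +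
      ∑ x ∈ range (H + 1), ∑ y ∈ range (H + 1),
        if cst H a x + cst H b y ≤ c then
          FF (nh H x y) (nxt H a x) (nxt H b y) (c - (cst H a x + cst H b y)) else 0) := by
  ext n
  cases n with
  | zero =>
    simp only [FF, coeff_mk, W, map_add, coeff_zero_X_mul]
    split_ifs <;> simp
  | succ n =>
    rw [map_add, coeff_succ_X_mul]
    have h0 : coeff (n + 1) (if H = 0 then (1 : ℚ⟦X⟧) else 0) = 0 := by
      split_ifs
      · simp [coeff_one]
      · simp
    rw [h0, zero_add]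
    conv_lhs => simp only [FF, coeff_mk, W]
    push_cast
    rw [map_add, map_sum]
    congr 1
    · split_ifs <;> simp [FF]
    · refine sum_congr rfl fun x _ => ?_
      rw [map_sum]
      refine sum_congr rfl fun y _ => ?_
      split_ifs <;> simp [FF]

lemma FF_rel {T H : ℕ} {a b a' b' : ℕ → ℕ} {c s : ℕ} (hc : c < T) (hs : s = 0 ∨ s + c ≤ H)
    (va : Val H a) (vb : Val H b) (va' : Val H a') (vb' : Val H b') (ha : Agr H T s a a')
    (hb : Agr H T s b b') : FF H a b c = FF H a' b' c := by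
  unfold FF
  congr 1
  funext n
  rw [W_rel T n H a b a' b' c s hc hs va vb va' vb' ha hb]

/-- canonical series at large height -/
noncomputable def GG (c H : ℕ) : ℚ⟦X⟧ := FF H (fun _ => H) (fun _ => H) c

lemma val_const (H : ℕ) : Val H (fun _ => H) := fun _ _ => by simp

lemma FF_high {H c : ℕ} {a b : ℕ → ℕ} (hH : 2 * c + 1 ≤ H) (va : Val H a) (vb : Val H b) :
    FF H a b c = GG c H := by
  refine FF_rel (T := c + 1) (s := c + 1) (by omega) (by omega) va vb (val_const H) (val_const H)
    ?_ ?_ <;> intro i _ <;> omega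

lemma GG_rec {c H : ℕ} (hH : 2 * c + 1 ≤ H) :
    GG c (H + 1) = X * (GG c (H + 2) + 2 * GG c (H + 1) + GG c H) := by
  have hv := val_const (H + 1)
  conv_lhs => rw [GG, FF_eq]
  have h1 : ¬ ((H + 1) * (H + 1) ≤ c) := by nlinarith
  rw [if_neg (by omega), if_neg h1, zero_add, zero_add]
  congr 1
  set a : ℕ → ℕ := fun _ => H + 1 with ha
  have c0 : cst (H + 1) a 0 = 0 := by simp [cst]
  have cH : cst (H + 1) a (H + 1) = 0 := by simp [cst]
  have hin : ∀ x, x ≤ H + 1 → cst (H + 1) a x = 0 → (∑ y ∈ range (H + 1 + 1),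
      if cst (H + 1) a x + cst (H + 1) a y ≤ c then
        FF (nh (H + 1) x y) (nxt (H + 1) a x) (nxt (H + 1) a y)
          (c - (cst (H + 1) a x + cst (H + 1) a y)) else 0) =
      GG c (nh (H + 1) x 0) + GG c (nh (H + 1) x (H + 1)) := by
    intro x hx hx0
    rw [sum_eq_add_of_mem 0 (H + 1) (by simp) (by simp) (by omega)]
    · rw [hx0, c0, cH, if_pos (by omega), if_pos (by omega)]
      simp only [add_zero, tsub_zero]
      rw [FF_high _ (hv.nxt hx 0) (by rw [nh_comm]; exact hv.nxt (by omega) x),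
        FF_high _ (hv.nxt hx (H + 1)) (by rw [nh_comm]; exact hv.nxt le_rfl x)]
      · unfold nh; split_ifs <;> omega
      · unfold nh; split_ifs <;> omega
    · intro y hy hy'
      have := cst_big hv hy'.1 (by have := mem_range.1 hy; omega)
      rw [if_neg (by omega)]
  rw [sum_eq_add_of_mem 0 (H + 1) (by simp) (by simp) (by omega)]
  · rw [hin 0 (by omega) c0, hin (H + 1) le_rfl cH]
    have e1 : nh (H + 1) 0 0 = H := by simp [nh]
    have e2 : nh (H + 1) 0 (H + 1) = H + 1 := by simp [nh]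
    have e3 : nh (H + 1) (H + 1) 0 = H + 1 := by simp [nh]
    have e4 : nh (H + 1) (H + 1) (H + 1) = H + 2 := by simp [nh]
    rw [e1, e2, e3, e4]
    ring
  · intro x hx hx'
    have := cst_big hv hx'.1 (by have := mem_range.1 hx; omega)
    apply sum_eq_zero
    intro y _
    rw [if_neg (by omega)]

theorem FF_mem (t : ℕ) (a b : ℕ → ℕ) : FF 0 a b t ∈ RR := by
  let S : Set ℚ⟦X⟧ := {f | ∃ H a b c, H ≤ 2 * t + 1 ∧ c ≤ t ∧ Val H a ∧ Val H b ∧ f = FF H a b c}
  have hfin : S.Finite := by
    classical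
    let key : Type := Fin (2 * t + 2) × (Fin (2 * t + 1) → Fin (t + 2)) ×
      (Fin (2 * t + 1) → Fin (t + 2)) × Fin (t + 1)
    let P : key → Set ℚ⟦X⟧ := fun k => {f | ∃ a b, Val k.1 a ∧ Val k.1 b ∧
      (∀ i : Fin (2 * t + 1), min (a i) (t + 1) = k.2.1 i) ∧
      (∀ i : Fin (2 * t + 1), min (b i) (t + 1) = k.2.2.1 i) ∧ f = FF k.1 a b k.2.2.2}
    have hP : ∀ k, (P k).Finite := by
      intro k
      apply Set.Subsingleton.finite
      rintro _ ⟨a, b, va, vb, ha, hb, rfl⟩ _ ⟨a', b', va', vb', ha', hb', rfl⟩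
      have hk := k.1.2
      have hc := k.2.2.2.2
      refine FF_rel (T := t + 1) (s := 0) hc (Or.inl rfl) va vb va' vb' ?_ ?_
      · intro i hi
        have e1 := ha ⟨i, by omega⟩
        have e2 := ha' ⟨i, by omega⟩
        simp only at e1 e2
        omega
      · intro i hi
        have e1 := hb ⟨i, by omega⟩
        have e2 := hb' ⟨i, by omega⟩
        simp only at e1 e2
        omega
    refine (Set.finite_iUnion hP).subset ?_
    rintro _ ⟨H, a, b, c, hH, hc, va, vb, rfl⟩
    refine Set.mem_iUnion.2 ⟨(⟨H, by omega⟩, fun i => ⟨min (a i) (t + 1), by omega⟩,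
      fun i => ⟨min (b i) (t + 1), by omega⟩, ⟨c, by omega⟩), a, b, va, vb, ?_, ?_, rfl⟩
    · intro i; rfl
    · intro i; rfl
  have hmem : ∀ H a b c, H ≤ 2 * t + 2 → c ≤ t → Val H a → Val H b →
      FF H a b c ∈ Submodule.span RR S := by
    intro H a b c hH hc va vb
    by_cases h : H ≤ 2 * t + 1
    · exact Submodule.subset_span ⟨H, a, b, c, h, hc, va, vb, rfl⟩
    · have hH' : H = 2 * t + 1 + 1 := by omega
      rw [FF_high (by omega) va vb, hH',
        geom (G := GG c) (H0 := 2 * t + 1) (fun H hH => GG_rec (by omega))]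
      have hr : Cat - 1 ∈ RR := RR.sub_mem Cat_mem RR.one_mem
      have : (Cat - 1) * GG c (2 * t + 1) = (⟨Cat - 1, hr⟩ : RR) • GG c (2 * t + 1) := rfl
      rw [this]
      exact Submodule.smul_mem _ _ (Submodule.subset_span
        ⟨2 * t + 1, _, _, c, le_rfl, hc, val_const _, val_const _, rfl⟩)
  refine nakayama hfin ?_ _ ⟨0, a, b, t, by omega, le_rfl, fun _ h => absurd h (by omega),
    fun _ h => absurd h (by omega), rfl⟩
  rintro _ ⟨H, a, b, c, hH, hc, va, vb, rfl⟩
  refine ⟨_, ?_, _, ?_, FF_eq H a b c⟩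
  · split_ifs
    · exact RR.one_mem
    · exact RR.zero_mem
  · apply Submodule.add_mem
    · split_ifs
      · exact hmem _ _ _ _ (by omega) (by omega) va.nxt_fix vb.nxt_fix
      · exact Submodule.zero_mem _
    · refine Submodule.sum_mem _ fun x hx => Submodule.sum_mem _ fun y hy => ?_
      have hx' : x ≤ H := by have := mem_range.1 hx; omega
      have hy' : y ≤ H := by have := mem_range.1 hy; omega
      split_ifs
      · refine hmem _ _ _ _ ?_ (by omega) (va.nxt hx' y) (by rw [nh_comm]; exact vb.nxt hy' x)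
        unfold nh
        omega
      · exact Submodule.zero_mem _

end Pool.Agent.H720Z.F321
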